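import Pool.Agent.W2helper75.FD.Stm

/-! FD piece CAP: points of `ℤ²` have capacity zero (logarithmic cutoff). -/

set_option autoImplicit false

open Filter Topology Finset

namespace Pool.Agent.W2helper53.FD

open Pool.Agent.W2helper75.FD

/-- harmonic numbers -/
noncomputable def Hm (n : ℕ) : ℝ := ∑ k ∈ range n, 1 / ((k : ℝ) + 1)

/-- the norm -/
def rr (z : ℤ × ℤ) : ℕ := max z.1.natAbs z.2.natAbs

/-- logarithmic cutoff -/
noncomputable def Fc (R : ℕ) (z : ℤ × ℤ) : ℝ := max 0 (1 - Hm (rr z) / Hm R)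

theorem Hm_zero : Hm 0 = 0 := by simp [Hm]

theorem Hm_succ (n : ℕ) : Hm (n + 1) = Hm n + 1 / ((n : ℝ) + 1) := by
  simp [Hm, sum_range_succ]

theorem Hm_mono : Monotone Hm := by
  refine monotone_nat_of_le_succ fun n => ?_
  rw [Hm_succ]
  have : (0 : ℝ) ≤ 1 / ((n : ℝ) + 1) := by positivity
  linarith

theorem Hm_nonneg (n : ℕ) : 0 ≤ Hm n := by
  rw [← Hm_zero]; exact Hm_mono (Nat.zero_le n)

theorem Hm_one_le {n : ℕ} (h : 1 ≤ n) : 1 ≤ Hm n := by
  have : Hm 1 = 1 := by simp [Hm]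
  rw [← this]; exact Hm_mono h

/-- increments -/
theorem Hm_add (n k : ℕ) : Hm (n + k) ≤ Hm n + k / ((n : ℝ) + 1) := by
  induction k with
  | zero => simp
  | succ k ih =>
    rw [← add_assoc, Hm_succ]
    have h1 : 1 / (((n + k : ℕ) : ℝ) + 1) ≤ 1 / ((n : ℝ) + 1) := by
      apply one_div_le_one_div_of_le (by positivity)
      push_cast
      have : (0 : ℝ) ≤ k := Nat.cast_nonneg k
      linarith
    push_cast at h1 ⊢
    rw [add_div]
    linarith

theorem Hm_diff {L a b : ℕ} (h1 : a ≤ b + L) (h2 : b ≤ a + L) :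
    |Hm a - Hm b| ≤ L * (L + 1) / ((a : ℝ) + 1) := by
  have hL : (0 : ℝ) ≤ L := Nat.cast_nonneg L
  rcases le_total a b with h | h
  · obtain ⟨k, rfl⟩ := Nat.exists_eq_add_of_le h
    have hk : k ≤ L := by omega
    have h3 := Hm_add a k
    have h4 := Hm_mono h
    rw [abs_sub_comm, abs_of_nonneg (by linarith)]
    have h5 : (k : ℝ) / ((a : ℝ) + 1) ≤ L * (L + 1) / ((a : ℝ) + 1) := by
      gcongr
      have : (k : ℝ) ≤ L := by exact_mod_cast hk
      nlinarith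
    linarith
  · obtain ⟨k, rfl⟩ := Nat.exists_eq_add_of_le h
    have hk : k ≤ L := by omega
    have h3 := Hm_add b k
    have h4 := Hm_mono h
    rw [abs_of_nonneg (by linarith)]
    have h5 : (k : ℝ) / ((b : ℝ) + 1) ≤ L * (L + 1) / (((b + k : ℕ) : ℝ) + 1) := by
      rw [div_le_div_iff₀ (by positivity) (by positivity)]
      have hk' : (k : ℝ) ≤ L := by exact_mod_cast hk
      have hb : (0 : ℝ) ≤ b := Nat.cast_nonneg b
      have hk0 : (0 : ℝ) ≤ k := Nat.cast_nonneg k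
      push_cast
      have h6 : (b : ℝ) + k + 1 ≤ (L + 1) * (b + 1) := by nlinarith
      calc (k : ℝ) * (b + k + 1) ≤ L * ((L + 1) * (b + 1)) := by gcongr
        _ = L * (L + 1) * (b + 1) := by ring
    linarith

theorem Fc_nonneg (R : ℕ) (z : ℤ × ℤ) : 0 ≤ Fc R z := le_max_left _ _

theorem Fc_le_one (R : ℕ) (z : ℤ × ℤ) : Fc R z ≤ 1 := by
  refine max_le zero_le_one ?_
  have := div_nonneg (Hm_nonneg (rr z)) (Hm_nonneg R)
  linarith

theorem Fc_far {R : ℕ} (hR : 1 ≤ R) {z : ℤ × ℤ} (h : R ≤ rr z) : Fc R z = 0 := by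
  have h1 : 0 < Hm R := lt_of_lt_of_le one_pos (Hm_one_le hR)
  refine max_eq_left ?_
  have : 1 ≤ Hm (rr z) / Hm R := by rw [le_div_iff₀ h1, one_mul]; exact Hm_mono h
  linarith

theorem rr_add {L : ℕ} (z w : ℤ × ℤ) (h1 : w.1.natAbs ≤ L) (h2 : w.2.natAbs ≤ L) :
    rr z ≤ rr (z + w) + L ∧ rr (z + w) ≤ rr z + L := by
  unfold rr
  rw [Prod.fst_add, Prod.snd_add]
  omega

theorem Fc_diff {R L : ℕ} (hR : 1 ≤ R) (z w : ℤ × ℤ) (h1 : w.1.natAbs ≤ L)
    (h2 : w.2.natAbs ≤ L) :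
    (Fc R z - Fc R (z + w)) ^ 2 ≤ (L * (L + 1) / Hm R) ^ 2 * (1 / ((rr z : ℝ) + 1) ^ 2) := by
  obtain ⟨h3, h4⟩ := rr_add z w h1 h2
  have hH : 0 < Hm R := lt_of_lt_of_le one_pos (Hm_one_le hR)
  have h5 : |Fc R z - Fc R (z + w)| ≤ |Hm (rr z) - Hm (rr (z + w))| / Hm R := by
    have h8 : ∀ x y : ℝ, |max 0 x - max 0 y| ≤ |x - y| := by
      intro x y
      rw [max_comm 0, max_comm 0]
      exact abs_max_sub_max_le_abs _ _ _
    refine (h8 _ _).trans (le_of_eq ?_)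
    have e : 1 - Hm (rr z) / Hm R - (1 - Hm (rr (z + w)) / Hm R) =
        -((Hm (rr z) - Hm (rr (z + w))) / Hm R) := by ring
    rw [e, abs_neg, abs_div, abs_of_pos hH]
  have h6 := Hm_diff h3 h4
  have h7 : |Fc R z - Fc R (z + w)| ≤ (L * (L + 1) / Hm R) * (1 / ((rr z : ℝ) + 1)) := by
    refine h5.trans ?_
    rw [div_le_iff₀ hH]
    refine h6.trans (le_of_eq ?_)
    field_simp
  calc (Fc R z - Fc R (z + w)) ^ 2 = |Fc R z - Fc R (z + w)| ^ 2 := (sq_abs _).symm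
    _ ≤ ((L * (L + 1) / Hm R) * (1 / ((rr z : ℝ) + 1))) ^ 2 := by gcongr
    _ = _ := by rw [mul_pow, div_pow (1 : ℝ), one_pow]

theorem box_sum (N : ℕ) : ∑ n ∈ range N, (#(Finset.box n : Finset (ℤ × ℤ)) : ℝ) *
    (1 / ((n : ℝ) + 1) ^ 2) ≤ 8 * Hm N := by
  rw [Hm, mul_sum]
  refine sum_le_sum fun n _ => ?_
  rcases Nat.eq_zero_or_pos n with rfl | hn
  · simp
  · rw [Int.card_box hn.ne']
    push_cast
    have : (n : ℝ) * (1 / ((n : ℝ) + 1) ^ 2) ≤ 1 / ((n : ℝ) + 1) := by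
      rw [mul_one_div, div_le_div_iff₀ (by positivity) (by positivity)]
      nlinarith [(Nat.cast_nonneg n : (0 : ℝ) ≤ n)]
    linarith

theorem sum_bound {R L : ℕ} (hR : 1 ≤ R) (w : ℤ × ℤ) (h1 : w.1.natAbs ≤ L)
    (h2 : w.2.natAbs ≤ L) (A : Finset (ℤ × ℤ)) :
    ∑ z ∈ A, (Fc R z - Fc R (z + w)) ^ 2 ≤ (L * (L + 1) / Hm R) ^ 2 * (8 * Hm (R + L)) := by
  classical
  have e1 : ∑ z ∈ A, (Fc R z - Fc R (z + w)) ^ 2 =
      ∑ z ∈ A.filter (fun z => rr z < R + L), (Fc R z - Fc R (z + w)) ^ 2 := by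
    refine (sum_filter_of_ne fun z _ hz => ?_).symm
    by_contra hlt
    rw [not_lt] at hlt
    have h3 := (rr_add z w h1 h2).1
    apply hz
    rw [Fc_far hR (by omega), Fc_far hR (by omega), sub_zero, zero_pow two_ne_zero]
  rw [e1, ← sum_fiberwise_of_maps_to (t := range (R + L)) (g := rr)
    (fun z hz => mem_range.2 (mem_filter.1 hz).2)]
  calc ∑ n ∈ range (R + L), ∑ z ∈ A.filter (fun z => rr z < R + L) with rr z = n,
        (Fc R z - Fc R (z + w)) ^ 2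
      ≤ ∑ n ∈ range (R + L), (L * (L + 1) / Hm R) ^ 2 *
        ((#(Finset.box n : Finset (ℤ × ℤ)) : ℝ) * (1 / ((n : ℝ) + 1) ^ 2)) := by
        refine sum_le_sum fun n _ => ?_
        calc _ ≤ ∑ z ∈ (Finset.box n : Finset (ℤ × ℤ)), (Fc R z - Fc R (z + w)) ^ 2 := by
              refine sum_le_sum_of_subset_of_nonneg ?_ fun _ _ _ => sq_nonneg _
              intro z hz
              rw [Int.mem_box]
              exact (mem_filter.1 hz).2
          _ ≤ ∑ z ∈ (Finset.box n : Finset (ℤ × ℤ)),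
              (L * (L + 1) / Hm R) ^ 2 * (1 / ((n : ℝ) + 1) ^ 2) := by
              refine sum_le_sum fun z hz => ?_
              have h3 : rr z = n := Int.mem_box.1 hz
              have := Fc_diff hR z w h1 h2
              rwa [h3] at this
          _ = _ := by rw [sum_const, nsmul_eq_mul]; ring
    _ = (L * (L + 1) / Hm R) ^ 2 * ∑ n ∈ range (R + L),
        ((#(Finset.box n : Finset (ℤ × ℤ)) : ℝ) * (1 / ((n : ℝ) + 1) ^ 2)) := by rw [mul_sum]
    _ ≤ _ := by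
        gcongr
        exact box_sum _

theorem cap : P_CAP := by
  intro L ε hε
  have hdiv : Tendsto Hm atTop atTop := Real.tendsto_sum_range_one_div_nat_succ_atTop
  obtain ⟨R, hR, hRH⟩ := ((eventually_ge_atTop 1).and
    (hdiv.eventually_ge_atTop (8 * (L * (L + 1)) ^ 2 * (L + 1) / ε))).exists
  have hH : 1 ≤ Hm R := Hm_one_le hR
  have hH0 : 0 < Hm R := by linarith
  refine ⟨Fc R, ?_, Fc_nonneg R, Fc_le_one R, R, ?_, ?_⟩
  · simp [Fc, rr, Hm_zero]
  · intro z hz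
    exact Fc_far hR (le_of_lt hz)
  · intro w h1 h2 A
    refine (sum_bound hR w h1 h2 A).trans ?_
    have h3 : Hm (R + L) ≤ (L + 1) * Hm R := by
      have h4 := Hm_add R L
      have h5 : (L : ℝ) / ((R : ℝ) + 1) ≤ L := div_le_self (Nat.cast_nonneg L) (by
        have : (0 : ℝ) ≤ R := Nat.cast_nonneg R
        linarith)
      nlinarith [(Nat.cast_nonneg L : (0 : ℝ) ≤ L)]
    have h6 : 8 * (L * (L + 1)) ^ 2 * (L + 1) ≤ ε * Hm R := by
      rw [div_le_iff₀ hε] at hRH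
      linarith
    calc ((L : ℝ) * (L + 1) / Hm R) ^ 2 * (8 * Hm (R + L))
        ≤ ((L : ℝ) * (L + 1) / Hm R) ^ 2 * (8 * ((L + 1) * Hm R)) := by gcongr
      _ = (8 * (L * (L + 1)) ^ 2 * (L + 1)) / Hm R := by field_simp
      _ ≤ (ε * Hm R) / Hm R := by gcongr
      _ = ε := by field_simp

end Pool.Agent.W2helper53.FD
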