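import Pool.Agent.W2helper75.FD.Stm4

/-!
# Project FD (helper75), part 3, piece CHR: a characteristic subgroup of finite index
-/

set_option autoImplicit false

namespace Pool.Agent.W2helper53.FD

open Pool.Agent.W2helper75.FD

/-- homomorphisms from a finitely generated group to a finite group are finitely many -/
theorem finite_hom (K Q : Type) [Group K] [Group Q] [Finite Q] (hK : Group.FG K) :
    Finite (K →* Q) := by
  classical
  obtain ⟨S, hS⟩ := Group.fg_iff'.1 hK |>.imp fun n h => h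
  obtain ⟨S, -, hS⟩ := hS
  refine Finite.of_injective (fun (ψ : K →* Q) (s : S) => ψ s) ?_
  intro ψ ψ' h
  refine MonoidHom.eq_of_eqOn_dense hS ?_
  intro s hs
  exact congrFun h ⟨s, hs⟩

theorem p_chr : P_CHR := by
  classical
  intro K _ hK K' f hfin hsurj
  have hfq : Finite (K ⧸ K') := Subgroup.finite_quotient_of_finiteIndex
  have hfp : Finite (Equiv.Perm (K ⧸ K')) := inferInstance
  have hfh : Finite (K →* Equiv.Perm (K ⧸ K')) := finite_hom K _ hK
  let K₁ : Subgroup K := ⨅ ψ : K →* Equiv.Perm (K ⧸ K'), ψ.ker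
  have hK₁ : K₁.FiniteIndex := Subgroup.finiteIndex_iInf fun ψ => Subgroup.finiteIndex_ker ψ
  have hmem : ∀ x, x ∈ K₁ ↔ ∀ ψ : K →* Equiv.Perm (K ⧸ K'), ψ x = 1 := by
    intro x
    simp only [K₁, Subgroup.mem_iInf, MonoidHom.mem_ker]
  have hchar : K₁.Characteristic := by
    rw [Subgroup.characteristic_iff_le_comap]
    intro σ x hx
    rw [Subgroup.mem_comap, hmem]
    intro ψ
    exact (hmem x).1 hx (ψ.comp σ.toMonoidHom)
  have hle : K₁ ≤ K' := by
    intro x hx
    have h1 := (hmem x).1 hx (MulAction.toPermHom K (K ⧸ K'))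
    have h2 : x ∈ K'.normalCore := by
      rw [Subgroup.normalCore_eq_ker, MonoidHom.mem_ker]
      exact h1
    exact K'.normalCore_le h2
  refine ⟨K₁, hK₁, hchar, f.comp (Subgroup.inclusion hle), ?_⟩
  obtain ⟨y, hy⟩ := hsurj (Multiplicative.ofAdd 1)
  obtain ⟨n, hn, -, hmn⟩ := Subgroup.exists_pow_mem_of_index_ne_zero hK₁.index_ne_zero (y : K)
  refine ⟨⟨(y : K) ^ n, hmn⟩, ?_⟩
  have h1 : Subgroup.inclusion hle ⟨(y : K) ^ n, hmn⟩ = y ^ n := Subtype.ext rfl
  rw [MonoidHom.comp_apply, h1, map_pow, hy, ← ofAdd_nsmul, ← ofAdd_zero]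
  intro h2
  have h3 := Multiplicative.ofAdd.injective h2
  simp at h3
  omega

end Pool.Agent.W2helper53.FD
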