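import Pool.Agent.W2helper75.FD.Stm

/-! FD piece COV: survival upstairs is at least as likely as survival downstairs. -/

set_option autoImplicit false

open MeasureTheory ProbabilityTheory Filter Topology
open scoped ENNReal NNReal

namespace Pool.Agent.W2helper53.FD

open Pool.Agent.W2helper75.FD

/-- the least set that contains `E` and with every `u ∉ P` everything reached from `u` -/
inductive Cl {V S : Type} (mv : V → S → V) (t : ℝ) (P E : Set V) (ω : V → Dat S) : V → Prop
  | base (v : V) : v ∈ E → Cl mv t P E ω v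
  | step (v w : V) : Cl mv t P E ω v → v ∉ P → Reach mv t v (ω v) w → Cl mv t P E ω w

/-- at least `n` elements -/
def Big {V : Type} (n : ℕ) (C : V → Prop) : Prop := ∃ F : Finset V, F.card = n ∧ ∀ v ∈ F, C v

theorem Big.mono {V : Type} {m n : ℕ} (hmn : m ≤ n) {C : V → Prop} (h : Big n C) : Big m C := by
  obtain ⟨F, hF, hC⟩ := h
  obtain ⟨G, hG, hG'⟩ := Finset.exists_subset_card_eq (s := F) (n := m) (by omega)
  exact ⟨G, hG', fun v hv => hC v (hG hv)⟩

theorem infinite_iff {V : Type} (C : V → Prop) : {v | C v}.Infinite ↔ ∀ n, Big n C := by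
  constructor
  · intro h n
    obtain ⟨F, hF, hc⟩ := h.exists_subset_card_eq n
    exact ⟨F, hc, fun v hv => hF hv⟩
  · intro h hfin
    obtain ⟨F, hF, hC⟩ := h (hfin.toFinset.card + 1)
    have : F ⊆ hfin.toFinset := fun v hv => by
      rw [Set.Finite.mem_toFinset]; exact hC v hv
    have := Finset.card_le_card this
    omega

section

variable {V S : Type} {mv : V → S → V} {t : ℝ}

theorem visited_iff (o : V) (ω : V → Dat S) (w : V) :
    Visited mv t o ω w ↔ Cl mv t ∅ {o} ω w := by
  constructor
  · intro h
    induction h with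
    | root => exact Cl.base _ rfl
    | step v w _ hr ih => exact Cl.step v w ih (Set.notMem_empty _) hr
  · intro h
    induction h with
    | base v hv => rw [Set.mem_singleton_iff] at hv; rw [hv]; exact Visited.root
    | step v w _ _ hr ih => exact Visited.step v w ih hr

/-- exploration of one vertex -/
theorem Cl_insert {P E : Set V} {v : V} (hv : v ∈ E) (hP : v ∉ P) (ω : V → Dat S) (w : V) :
    Cl mv t P E ω w ↔ Cl mv t (insert v P) (E ∪ {w | Reach mv t v (ω v) w}) ω w := by
  constructor
  · intro h
    induction h with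
    | base u hu => exact Cl.base _ (Or.inl hu)
    | step u w _ hu hr ih =>
      by_cases huv : u = v
      · subst huv
        exact Cl.base _ (Or.inr hr)
      · exact Cl.step u w ih (by rintro (h | h); exacts [huv h, hu h]) hr
  · intro h
    induction h with
    | base u hu =>
      rcases hu with hu | hu
      · exact Cl.base _ hu
      · exact Cl.step v u (Cl.base _ hv) hP hu
    | step u w _ hu hr ih => exact Cl.step u w ih (fun h => hu (Or.inr h)) hr

theorem Cl_congr {P E : Set V} {ω ω' : V → Dat S} (h : ∀ u, u ∉ P → ω u = ω' u) (w : V) :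
    Cl mv t P E ω w → Cl mv t P E ω' w := by
  intro hw
  induction hw with
  | base u hu => exact Cl.base _ hu
  | step u w _ hu hr ih => exact Cl.step u w ih hu (by rw [← h u hu]; exact hr)

theorem Cl_update [DecidableEq V] {P E : Set V} {v : V} (hv : v ∈ E) (hP : v ∉ P)
    (ω : V → Dat S) (d : Dat S) (w : V) :
    Cl mv t P E (Function.update ω v d) w ↔
      Cl mv t (insert v P) (E ∪ {w | Reach mv t v d w}) ω w := by
  rw [Cl_insert hv hP, Function.update_self]
  have key : ∀ u, u ∉ insert v P → Function.update ω v d u = ω u := by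
    intro u hu
    exact Function.update_of_ne (fun h => hu (Or.inl h)) _ _
  exact ⟨Cl_congr key w, Cl_congr (fun u hu => (key u hu).symm) w⟩

/-! ### measurability -/

variable [Countable V] [Fintype S] [MeasurableSpace S] [DiscreteMeasurableSpace S]

omit [Fintype S] in
theorem meas_pth [Countable S] (v : V) (k : ℕ) (w : V) :
    MeasurableSet {c : ℕ → S | pth mv v c k = w} := by
  induction k generalizing w with
  | zero =>
    by_cases h : v = w
    · simp [pth, h]
    · simp [pth, h]
  | succ k ih =>
    have : {c : ℕ → S | pth mv v c (k + 1) = w} =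
        ⋃ (u : V) (s : S) (_ : mv u s = w), {c : ℕ → S | pth mv v c k = u} ∩ {c | c k = s} := by
      ext c
      simp only [pth, Set.mem_ofPred_eq, Set.mem_iUnion, Set.mem_inter_iff, exists_prop]
      constructor
      · intro h
        exact ⟨_, _, h, rfl, rfl⟩
      · rintro ⟨u, s, h, h1, h2⟩
        rw [h1, h2, h]
    rw [this]
    refine MeasurableSet.iUnion fun u => MeasurableSet.iUnion fun s => MeasurableSet.iUnion fun _ =>
      (ih u).inter ?_
    have h1 : Measurable (fun c : ℕ → S => c k) := measurable_pi_apply k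
    exact h1 (measurableSet_singleton s)

omit [Fintype S] in
theorem meas_hits [Countable S] (v w : V) : MeasurableSet {c : Par S | Hits mv t v c w} := by
  have : {c : Par S | Hits mv t v c w} = ⋃ k : ℕ,
      {c : Par S | ∑ j ∈ Finset.range k, c.1 j ≤ t} ∩ Prod.snd ⁻¹' {c | pth mv v c k = w} := by
    ext c
    simp [Hits]
  rw [this]
  refine MeasurableSet.iUnion fun k => MeasurableSet.inter ?_ (measurable_snd (meas_pth v k w))
  refine measurableSet_le ?_ measurable_const
  refine Finset.measurable_sum _ fun j _ => ?_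
  exact (measurable_pi_apply j).comp measurable_fst

omit [Fintype S] in
theorem meas_reach [Countable S] (v w : V) : MeasurableSet {d : Dat S | Reach mv t v d w} := by
  have : {d : Dat S | Reach mv t v d w} = ⋃ i : ℕ,
      (Prod.fst ⁻¹' Set.Ioi i) ∩ ((fun d : Dat S => d.2 i) ⁻¹' {c | Hits mv t v c w}) := by
    ext d
    simp [Reach]
  rw [this]
  refine MeasurableSet.iUnion fun i => MeasurableSet.inter ?_ ?_
  · exact measurable_fst measurableSet_Ioi
  · exact ((measurable_pi_apply i).comp measurable_snd) (meas_hits v w)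

/-- levels -/
def Lv (mv : V → S → V) (t : ℝ) (P E : Set V) (ω : V → Dat S) : ℕ → V → Prop
  | 0, w => w ∈ E
  | k + 1, w => Lv mv t P E ω k w ∨ ∃ u, Lv mv t P E ω k u ∧ u ∉ P ∧ Reach mv t u (ω u) w

omit [Countable V] [Fintype S] [MeasurableSpace S] [DiscreteMeasurableSpace S] in
theorem Cl_iff_Lv (P E : Set V) (ω : V → Dat S) (w : V) :
    Cl mv t P E ω w ↔ ∃ k, Lv mv t P E ω k w := by
  constructor
  · intro h
    induction h with
    | base u hu => exact ⟨0, hu⟩
    | step u w _ hu hr ih =>
      obtain ⟨k, hk⟩ := ih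
      exact ⟨k + 1, Or.inr ⟨u, hk, hu, hr⟩⟩
  · rintro ⟨k, hk⟩
    induction k generalizing w with
    | zero => exact Cl.base _ hk
    | succ k ih =>
      rcases hk with hk | ⟨u, hu, hP, hr⟩
      · exact ih w hk
      · exact Cl.step u w (ih u hu) hP hr

omit [Fintype S] in
theorem meas_Lv [Countable S] (P E : Set V) (k : ℕ) (w : V) :
    MeasurableSet {ω : V → Dat S | Lv mv t P E ω k w} := by
  induction k generalizing w with
  | zero =>
    simp only [Lv]
    exact MeasurableSet.const _
  | succ k ih =>
    have : {ω : V → Dat S | Lv mv t P E ω (k + 1) w} = {ω | Lv mv t P E ω k w} ∪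
        ⋃ (u : V) (_ : u ∉ P), {ω | Lv mv t P E ω k u} ∩
          ((fun ω : V → Dat S => ω u) ⁻¹' {d | Reach mv t u d w}) := by
      ext ω
      simp only [Lv, Set.mem_ofPred_eq, Set.mem_union, Set.mem_iUnion, Set.mem_inter_iff,
        Set.mem_preimage, exists_prop]
      constructor
      · rintro (h | ⟨u, h1, h2, h3⟩)
        · exact Or.inl h
        · exact Or.inr ⟨u, h2, h1, h3⟩
      · rintro (h | ⟨u, h1, h2, h3⟩)
        · exact Or.inl h
        · exact Or.inr ⟨u, h2, h1, h3⟩
    rw [this]
    refine (ih w).union (MeasurableSet.iUnion fun u => MeasurableSet.iUnion fun _ =>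
      (ih u).inter (measurable_pi_apply u (meas_reach u w)))

omit [Fintype S] in
theorem meas_big [Countable S] (P E : Set V) (n : ℕ) :
    MeasurableSet {ω : V → Dat S | Big n (Cl mv t P E ω)} := by
  have : {ω : V → Dat S | Big n (Cl mv t P E ω)} =
      ⋃ (F : Finset V) (_ : F.card = n), ⋂ v ∈ F, ⋃ k, {ω | Lv mv t P E ω k v} := by
    ext ω
    simp only [Big, Set.mem_ofPred_eq, Set.mem_iUnion, Set.mem_iInter, exists_prop, Cl_iff_Lv]
  rw [this]
  refine MeasurableSet.iUnion fun F => MeasurableSet.iUnion fun _ => ?_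
  refine Finset.measurableSet_biInter _ fun v _ => MeasurableSet.iUnion fun k => meas_Lv P E k v

/-- exploration of one vertex, probabilities -/
theorem law_step [Nonempty S] (hres : P_RES) (lam : ℝ≥0) {P E : Set V} {v : V} (hv : v ∈ E)
    (hP : v ∉ P) (n : ℕ) :
    law V S lam {ω | Big n (Cl mv t P E ω)} = ∫⁻ d,
      law V S lam {ω | Big n (Cl mv t (insert v P) (E ∪ {w | Reach mv t v d w}) ω)}
        ∂(dlaw S lam) := by
  classical
  have hm : Measurable (fun p : Dat S × (V → Dat S) => Function.update p.2 v p.1) :=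
    measurable_update'.comp measurable_swap
  have hset := meas_big (mv := mv) (t := t) (S := S) P E n
  have h := hres V (Dat S) (dlaw S lam) v
  conv_lhs => rw [law, ← h, Measure.map_apply hm hset, Measure.prod_apply (hm hset)]
  refine lintegral_congr fun d => ?_
  congr 1
  ext ω
  simp only [Set.mem_preimage, Set.mem_ofPred_eq]
  have : Cl mv t P E (Function.update ω v d) =
      Cl mv t (insert v P) (E ∪ {w | Reach mv t v d w}) ω := by
    funext w
    exact propext (Cl_update hv hP ω d w)
  rw [this]

end

theorem pth_map {V X S : Type} {mv : V → S → V} {mx : X → S → X} {φ : V → X}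
    (h : ∀ v s, φ (mv v s) = mx (φ v) s) (v : V) (c : ℕ → S) (k : ℕ) :
    φ (pth mv v c k) = pth mx (φ v) c k := by
  induction k with
  | zero => rfl
  | succ k ih => rw [pth, pth, h, ih]

theorem reach_map {V X S : Type} {mv : V → S → V} {mx : X → S → X} {φ : V → X}
    (h : ∀ v s, φ (mv v s) = mx (φ v) s) (t : ℝ) (v : V) (d : Dat S) (x : X)
    (hx : Reach mx t (φ v) d x) : ∃ w, Reach mv t v d w ∧ φ w = x := by
  obtain ⟨i, hi, k, hk, he⟩ := hx
  exact ⟨_, ⟨i, hi, k, hk, rfl⟩, by rw [pth_map h, he]⟩

/-- the comparison -/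
theorem compare (hres : P_RES) {V X S : Type} [Countable V] [Countable X] [Fintype S] [Nonempty S]
    [MeasurableSpace S] [DiscreteMeasurableSpace S] {mv : V → S → V} {mx : X → S → X} {φ : V → X}
    (h : ∀ v s, φ (mv v s) = mx (φ v) s) (lam : ℝ≥0) (t : ℝ) (n : ℕ) :
    ∀ (m : ℕ) (P : Finset V) (E : Set V) (Q : Finset X) (F : Set X), (∀ v ∈ P, φ v ∈ Q) →
      Q.card = P.card → (∀ v ∈ P, v ∈ E) → F ⊆ φ '' E → n ≤ m + P.card →
      law X S lam {ω | Big n (Cl mx t (Q : Set X) F ω)} ≤
        law V S lam {ω | Big n (Cl mv t (P : Set V) E ω)} := by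
  classical
  intro m
  induction m with
  | zero =>
    intro P E Q F _ _ hPE _ hn
    have : {ω : V → Dat S | Big n (Cl mv t (P : Set V) E ω)} = Set.univ := by
      ext ω
      simp only [Set.mem_ofPred_eq, Set.mem_univ, iff_true]
      exact Big.mono (by omega) ⟨P, rfl, fun v hv => Cl.base v (hPE v hv)⟩
    rw [this, measure_univ]
    exact prob_le_one
  | succ m ih =>
    intro P E Q F hPQ hc hPE hF hn
    by_cases hn' : n ≤ P.card
    · have : {ω : V → Dat S | Big n (Cl mv t (P : Set V) E ω)} = Set.univ := by
        ext ω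
        simp only [Set.mem_ofPred_eq, Set.mem_univ, iff_true]
        exact Big.mono hn' ⟨P, rfl, fun v hv => Cl.base v (hPE v hv)⟩
      rw [this, measure_univ]
      exact prob_le_one
    by_cases hFQ : F ⊆ (Q : Set X)
    · have : {ω : X → Dat S | Big n (Cl mx t (Q : Set X) F ω)} = ∅ := by
        ext ω
        simp only [Set.mem_ofPred_eq, Set.mem_empty_iff_false, iff_false]
        rintro ⟨G, hG, hGC⟩
        have : G ⊆ Q := by
          intro x hx
          have key : ∀ y, Cl mx t (Q : Set X) F ω y → y ∈ (Q : Set X) := by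
            intro y hy
            induction hy with
            | base _ hy => exact hFQ hy
            | step a b _ ha _ iha => exact absurd iha ha
          exact key x (hGC x hx)
        have := Finset.card_le_card this
        omega
      rw [this, measure_empty]
      exact zero_le
    · obtain ⟨x, hxF, hxQ⟩ := Set.not_subset.1 hFQ
      obtain ⟨v, hvE, rfl⟩ := hF hxF
      have hvP : v ∉ P := fun hv => hxQ (hPQ v hv)
      rw [law_step hres lam hxF hxQ, law_step (P := (P : Set V)) hres lam hvE hvP]
      refine lintegral_mono fun d => ?_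
      have h1 := ih (insert v P) (E ∪ {w | Reach mv t v d w}) (insert (φ v) Q)
        (F ∪ {w | Reach mx t (φ v) d w}) ?_ ?_ ?_ ?_ ?_
      · rw [Finset.coe_insert, Finset.coe_insert] at h1
        exact h1
      · intro u hu
        rcases Finset.mem_insert.1 hu with rfl | hu
        · exact Finset.mem_insert_self _ _
        · exact Finset.mem_insert_of_mem (hPQ u hu)
      · rw [Finset.card_insert_of_notMem hvP, Finset.card_insert_of_notMem (by exact_mod_cast hxQ),
          hc]
      · intro u hu
        rcases Finset.mem_insert.1 hu with rfl | hu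
        · exact Or.inl hvE
        · exact Or.inl (hPE u hu)
      · rintro y (hy | hy)
        · obtain ⟨u, hu, rfl⟩ := hF hy
          exact ⟨u, Or.inl hu, rfl⟩
        · obtain ⟨w, hw, rfl⟩ := reach_map h t v d y hy
          exact ⟨w, Or.inr hw, rfl⟩
      · rw [Finset.card_insert_of_notMem hvP]
        omega

theorem cov (hres : P_RES) : P_COV := by
  intro V X S _ _ _ _ _ _ mv mx φ h lam t o
  have e1 : Surv mv t o = ⋂ n : ℕ, {ω : V → Dat S | Big n (Cl mv t ∅ {o} ω)} := by
    ext ω
    simp only [Surv, Set.mem_ofPred_eq, Set.mem_iInter, visited_iff]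
    exact infinite_iff _
  have e2 : Surv mx t (φ o) = ⋂ n : ℕ, {ω : X → Dat S | Big n (Cl mx t ∅ {φ o} ω)} := by
    ext ω
    simp only [Surv, Set.mem_ofPred_eq, Set.mem_iInter, visited_iff]
    exact infinite_iff _
  have e3 : law V S lam (⋂ n : ℕ, {ω : V → Dat S | Big n (Cl mv t ∅ {o} ω)}) =
      ⨅ n : ℕ, law V S lam {ω : V → Dat S | Big n (Cl mv t ∅ {o} ω)} := by
    refine Antitone.measure_iInter ?_ ?_ ?_
    · intro m n hmn ω hω
      exact Big.mono hmn hω
    · exact fun n => (meas_big _ _ n).nullMeasurableSet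
    · exact ⟨0, measure_ne_top _ _⟩
  rw [e1, e3]
  refine le_iInf fun n => ?_
  refine (measure_mono (e2.subset.trans (Set.iInter_subset _ n))).trans ?_
  have := compare hres h lam t n n ∅ {o} ∅ {φ o} (by simp) rfl (by simp) (by simp) (by simp)
  simpa using this

end Pool.Agent.W2helper53.FD
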