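import Pool.Agent.W2helper75.FD.Stm4

/-!
# Project FD (helper75), part 3, piece EAV: elementary amenable groups are virtually indicable
-/

set_option autoImplicit false

namespace Pool.Agent.W2helper53.FD

open Pool.Agent.W2helper75.FD

/-- a finite index subgroup maps onto `ℤ` -/
def VZ (E : Type) [Group E] : Prop :=
  ∃ (E' : Subgroup E) (f : E' →* Multiplicative ℤ), E'.FiniteIndex ∧ Function.Surjective f

/-- from a finite index subgroup -/
theorem vz_sub {E : Type} [Group E] (N : Subgroup E) [hN : N.FiniteIndex] (h : VZ N) : VZ E := by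
  obtain ⟨E', f, hfin, hf⟩ := h
  refine ⟨E'.map N.subtype,
    f.comp (E'.equivMapOfInjective N.subtype N.subtype_injective).symm.toMonoidHom, ?_, ?_⟩
  · refine ⟨?_⟩
    have h1 : (E'.map N.subtype).index = E'.index * N.index := by
      rw [Subgroup.index_map_subtype]
    rw [h1]
    exact mul_ne_zero hfin.index_ne_zero hN.index_ne_zero
  · exact hf.comp (E'.equivMapOfInjective N.subtype N.subtype_injective).symm.surjective

/-- from a quotient -/
theorem vz_quot {E Q : Type} [Group E] [Group Q] (π : E →* Q) (hπ : Function.Surjective π)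
    (h : VZ Q) : VZ E := by
  obtain ⟨Q', f, hfin, hf⟩ := h
  have hfin' := hfin
  refine ⟨Q'.comap π, f.comp (π.subgroupComap Q'), ?_, ?_⟩
  · refine ⟨?_⟩
    rw [Subgroup.index_comap_of_surjective _ hπ]
    exact hfin.index_ne_zero
  · exact hf.comp (MonoidHom.subgroupComap_surjective_of_surjective π Q' hπ)

/-- finitely generated infinite abelian groups -/
theorem vz_comm {E : Type} [Group E] (hc : ∀ x y : E, x * y = y * x) (hfg : Group.FG E)
    (hinf : Infinite E) : VZ E := by
  classical
  let _ : CommGroup E := { ‹Group E› with mul_comm := hc }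
  have hfg' : AddGroup.FG (Additive E) := AddGroup.fg_iff_mul_fg.2 hfg
  obtain ⟨n, ι, _, p, hp, e, ⟨φ⟩⟩ := AddCommGroup.equiv_free_prod_directSum_zmod (Additive E)
  rcases n with _ | n
  · exfalso
    have hne : ∀ i, NeZero (p i ^ e i) := fun i => ⟨pow_ne_zero _ (hp i).ne_zero⟩
    have : Finite (DirectSum ι fun i => ZMod (p i ^ e i)) :=
      Finite.of_equiv _ (DirectSum.addEquivProd (fun i => ZMod (p i ^ e i))).symm.toEquiv
    have h1 : Finite (Additive E) := Finite.of_equiv _ φ.symm.toEquiv
    exact hinf.not_finite h1
  · obtain ⟨F, hF⟩ : ∃ F : E →* Multiplicative ℤ, Function.Surjective F := by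
      refine ⟨AddMonoidHom.toMultiplicativeRight ((Finsupp.applyAddHom (0 : Fin (n + 1))).comp
        ((AddMonoidHom.fst _ _).comp φ.toAddMonoidHom)), fun z => ?_⟩
      refine ⟨(φ.symm (Finsupp.single 0 (Multiplicative.toAdd z), 0)).toMul, ?_⟩
      show Multiplicative.ofAdd ((φ (φ.symm (Finsupp.single 0 (Multiplicative.toAdd z), 0))).1 0) = z
      rw [AddEquiv.apply_symm_apply]
      simp
    exact ⟨⊤, F.comp (Subgroup.topEquiv (G := E)).toMonoidHom, inferInstance,
      hF.comp (Subgroup.topEquiv (G := E)).surjective⟩

theorem p_eav : P_EAV := by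
  classical
  intro G _ hG
  induction hG with
  | fin G h =>
    intro E _ j hj _ hE
    exact absurd (Finite.of_injective j hj) hE.not_finite
  | comm G h =>
    intro E _ j hj hfg hE
    exact vz_comm (fun x y => hj (by rw [map_mul, map_mul, h])) hfg hE
  | ext G N h1 h2 ih1 ih2 =>
    intro E _ j hj hfg hE
    have hle : N.comap j ≤ N.comap j := le_rfl
    by_cases hq : Infinite (E ⧸ N.comap j)
    · have hfgq : Group.FG (E ⧸ N.comap j) := inferInstance
      have h3 := ih2 (E ⧸ N.comap j) (QuotientGroup.map (N.comap j) N j hle) (by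
        rw [injective_iff_map_eq_one]
        intro x
        induction x using QuotientGroup.induction_on with
        | H x =>
          intro hx
          rw [QuotientGroup.map_mk, QuotientGroup.eq_one_iff] at hx
          rw [QuotientGroup.eq_one_iff]
          exact hx) hfgq hq
      exact vz_quot (QuotientGroup.mk' (N.comap j)) (QuotientGroup.mk'_surjective _) h3
    · rw [not_infinite_iff_finite] at hq
      have hfi : (N.comap j).FiniteIndex := Subgroup.finiteIndex_of_finite_quotient
      have hfgn : Group.FG (N.comap j) := inferInstance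
      have hinf : Infinite (N.comap j) := by
        by_contra hfin
        rw [not_infinite_iff_finite] at hfin
        have : Finite E := Finite.of_subgroup_quotient (N.comap j)
        exact hE.not_finite this
      exact vz_sub (N.comap j) (ih1 (N.comap j) (j.subgroupComap N) (by
        intro x y hxy
        apply Subtype.ext
        apply hj
        exact congrArg Subtype.val hxy) hfgn hinf)
  | union G I K dir cov h ih =>
    intro E _ j hj hfg hE
    obtain ⟨i, hi⟩ : ∃ i, j.range ≤ K i := by
      obtain ⟨n, S, -, hS⟩ := Group.fg_iff'.1 hfg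
      have key : ∀ T : Finset E, ∃ i, ∀ x ∈ T, j x ∈ K i := by
        intro T
        induction T using Finset.induction_on with
        | empty =>
          obtain ⟨i, -⟩ := cov 1
          exact ⟨i, by simp⟩
        | insert a T _ ihT =>
          obtain ⟨i, hi⟩ := ihT
          obtain ⟨k, hk⟩ := cov (j a)
          obtain ⟨l, hl1, hl2⟩ := dir i k
          refine ⟨l, fun x hx => ?_⟩
          rcases Finset.mem_insert.1 hx with rfl | hx
          · exact hl2 hk
          · exact hl1 (hi x hx)
      obtain ⟨i, hi⟩ := key S
      refine ⟨i, ?_⟩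
      rw [MonoidHom.range_eq_map, ← hS, MonoidHom.map_closure, Subgroup.closure_le]
      rintro _ ⟨x, hx, rfl⟩
      exact hi x hx
    refine ih i E (j.codRestrict (K i) fun x => hi ⟨x, rfl⟩) ?_ hfg hE
    intro x y hxy
    exact hj (congrArg Subtype.val hxy)

end Pool.Agent.W2helper53.FD
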